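import Pool.Agent.H89.LG.Defs

set_option autoImplicit false

/-! # LG-BIG: high points which see a layer of large period (helper71) -/

namespace Pool.Agent.H89.LG.T.BIG

theorem main : S_BIG := by
  classical
  intro hone e n M β f hM hf
  have hex : ∀ p : (Fin (e + 1) → ℤ) × ℤ,
      p ∈ {p : (Fin (e + 1) → ℤ) × ℤ | hh e M + n < p.2 ∧ ∃ k, Vis e n p.2 k ∧ 2 * n < 2 ^ k} →
      ∃ k, Vis e n p.2 k ∧ 2 * n < 2 ^ k := fun p hp => hp.2
  choose! kk hkk using hex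
  have hb : ∀ p : (Fin (e + 1) → ℤ) × ℤ, ∃ b : ℤ, -(n : ℤ) ≤ b ∧ b ≤ n + 1 ∧
      (p ∈ {p : (Fin (e + 1) → ℤ) × ℤ | hh e M + n < p.2 ∧ ∃ k, Vis e n p.2 k ∧ 2 * n < 2 ^ k} →
        ∀ c : ℤ, |c| ≤ n → ((2 : ℤ) ^ (kk p) ∣ p.1 (ix e (kk p)) + c ↔ c = b)) := by
    intro p
    by_cases h : ∃ b : ℤ, |b| ≤ n ∧ (2 : ℤ) ^ (kk p) ∣ p.1 (ix e (kk p)) + b
    · obtain ⟨b, hb1, hb2⟩ := h
      have hb3 := abs_le.1 hb1
      refine ⟨b, hb3.1, by omega, fun hp c hc => ⟨fun hd => ?_, fun hcb => hcb ▸ hb2⟩⟩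
      obtain ⟨-, h2⟩ := hkk p hp
      have h7 : 2 * (n : ℤ) < (2 : ℤ) ^ (kk p) := by exact_mod_cast h2
      have h8 : (2 : ℤ) ^ (kk p) ∣ c - b := by
        have h10 := dvd_sub hd hb2
        have h11 : p.1 (ix e (kk p)) + c - (p.1 (ix e (kk p)) + b) = c - b := by ring
        rwa [h11] at h10
      have h9 := abs_le.1 hc
      have h10 : c - b = 0 := Int.eq_zero_of_abs_lt_dvd h8 (by
        rw [abs_lt]
        constructor <;> linarith)
      linarith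
    · push Not at h
      refine ⟨n + 1, by omega, le_rfl, fun _ c hc => ⟨fun hd => absurd hd (h c hc), fun hcb => ?_⟩⟩
      exfalso
      rw [hcb] at hc
      have := (abs_le.1 hc).2
      omega
  choose b hb1 hb2 hb3 using hb
  have hcard : ((Finset.univ : Finset (Fin (e + 1))) ×ˢ Finset.Icc (-(n : ℤ)) n ×ˢ
      Finset.Icc (-(n : ℤ)) (n + 1)).card = (e + 1) * ((2 * n + 1) * (2 * n + 2)) := by
    rw [Finset.card_product, Finset.card_product, Int.card_Icc, Int.card_Icc, Finset.card_univ,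
      Fintype.card_fin]
    congr 2 <;> omega
  rw [← hcard]
  refine ncard_le_of_code _ f (fun p => (ix e (kk p), hh e (kk p) - p.2, b p)) _ ?_ ?_
  · intro p hp
    obtain ⟨h1, h2⟩ := hkk p hp
    unfold Vis at h1
    have h3 := abs_le.1 h1
    rw [Finset.mem_product, Finset.mem_product, Finset.mem_Icc, Finset.mem_Icc]
    exact ⟨Finset.mem_univ _, ⟨h3.1, h3.2⟩, hb1 p, hb2 p⟩
  · intro p hp q hq hpq
    obtain ⟨hp1, hp2⟩ := hkk p hp
    obtain ⟨hq1, hq2⟩ := hkk q hq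
    simp only [Prod.mk.injEq] at hpq
    obtain ⟨hc0, hc1, hc2⟩ := hpq
    apply hf
    intro u s hu hs
    rw [hone e n M (kk p) p.2 (p.1 + u) s hM hp.1 hp1 hs,
      hone e n M (kk q) q.2 (q.1 + u) s hM hq.1 hq1 hs, hc1]
    refine and_congr_right fun _ => ?_
    simp only [Pi.add_apply]
    rw [hb3 p hp (u (ix e (kk p))) (hu _), hb3 q hq (u (ix e (kk q))) (hu _), hc0, hc2]

end Pool.Agent.H89.LG.T.BIG
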