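import Pool.Agent.H89.LG.Defs

set_option autoImplicit false

/-! # LG-CNT: at most `C n^2` classes (helper71) -/

namespace Pool.Agent.H89.LG.T.CNT

theorem main : S_CNT := by
  classical
  intro hnone hlow hone hsmall hbig e
  refine ⟨(2 ^ (e + 2) * 4 + 2) * (2 ^ (e + 2) * 4) + 1 + 12 + 12 * (e + 1), ?_⟩
  intro n hn β f hf
  -- the smallest `M` with `4 n ≤ hh e M`
  have hexM : ∃ M : ℕ, 4 * (n : ℤ) ≤ hh e M := by
    refine ⟨4 * n, ?_⟩
    have h1 : 4 * n ≤ 2 ^ (4 * n) := Nat.lt_two_pow_self.le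
    have h2 : (2 : ℕ) ^ (4 * n) ≤ 2 ^ ((e + 2) * (4 * n)) :=
      Nat.pow_le_pow_right (by norm_num) (Nat.le_mul_of_pos_left _ (by omega))
    have h3 : ((4 * n : ℕ) : ℤ) ≤ ((2 ^ ((e + 2) * (4 * n)) : ℕ) : ℤ) := by
      exact_mod_cast h1.trans h2
    unfold hh
    push_cast at h3
    exact h3
  obtain ⟨M, hM, hMmin⟩ : ∃ M : ℕ, 4 * (n : ℤ) ≤ hh e M ∧ hh e M < 2 ^ (e + 2) * (4 * n) := by
    refine ⟨Nat.find hexM, Nat.find_spec hexM, ?_⟩
    have hM1 : Nat.find hexM ≠ 0 := by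
      intro h0
      have := Nat.find_spec hexM
      rw [h0] at this
      simp [hh] at this
      omega
    obtain ⟨m, hm⟩ := Nat.exists_eq_succ_of_ne_zero hM1
    have h2 := Nat.find_min hexM (m := m) (by omega)
    rw [hm, Nat.succ_eq_add_one, hh_succ]
    have h3 : hh e m < 4 * n := not_le.1 h2
    exact mul_lt_mul_of_pos_left h3 (by positivity)
  obtain ⟨g1, c1⟩ := hnone e n β f hf
  obtain ⟨g2, c2⟩ := hlow e n M β f hM hf
  obtain ⟨g3, c3⟩ := hsmall hone e n M β f hM hf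
  obtain ⟨g4, c4⟩ := hbig hone e n M β f hM hf
  obtain ⟨S1, hS1⟩ : ∃ S : Set ((Fin (e + 1) → ℤ) × ℤ), S = {p | ∀ k, ¬ Vis e n p.2 k} := ⟨_, rfl⟩
  obtain ⟨S2, hS2⟩ : ∃ S : Set ((Fin (e + 1) → ℤ) × ℤ),
    S = {p | 1 - (n : ℤ) ≤ p.2 ∧ p.2 ≤ hh e M + n} := ⟨_, rfl⟩
  obtain ⟨S3, hS3⟩ : ∃ S : Set ((Fin (e + 1) → ℤ) × ℤ),
    S = {p | hh e M + n < p.2 ∧ ∃ k, Vis e n p.2 k ∧ 2 ^ k ≤ 2 * n} := ⟨_, rfl⟩
  obtain ⟨S4, hS4⟩ : ∃ S : Set ((Fin (e + 1) → ℤ) × ℤ),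
    S = {p | hh e M + n < p.2 ∧ ∃ k, Vis e n p.2 k ∧ 2 * n < 2 ^ k} := ⟨_, rfl⟩
  rw [← hS1] at g1 c1
  rw [← hS2] at g2 c2
  rw [← hS3] at g3 c3
  rw [← hS4] at g4 c4
  have hun : Set.range f = f '' S1 ∪ f '' S2 ∪ f '' S3 ∪ f '' S4 := by
    rw [← Set.image_union, ← Set.image_union, ← Set.image_union, ← Set.image_univ]
    congr 1
    symm
    rw [Set.eq_univ_iff_forall]
    intro p
    by_cases h1 : ∀ k, ¬ Vis e n p.2 k
    · exact Or.inl (Or.inl (Or.inl (by rw [hS1]; exact h1)))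
    · push Not at h1
      obtain ⟨k, hk⟩ := h1
      by_cases h2 : p.2 ≤ hh e M + n
      · refine Or.inl (Or.inl (Or.inr ?_))
        rw [hS2]
        refine ⟨?_, h2⟩
        unfold Vis at hk
        have h3 := abs_le.1 hk
        have h4 := hh_pos e k
        omega
      · push Not at h2
        by_cases h3 : 2 ^ k ≤ 2 * n
        · refine Or.inl (Or.inr ?_)
          rw [hS3]
          exact ⟨h2, k, hk, h3⟩
        · refine Or.inr ?_
          rw [hS4]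
          exact ⟨h2, k, hk, not_le.1 h3⟩
  refine ⟨by rw [hun]; exact ((g1.union g2).union g3).union g4, ?_⟩
  have hle : (Set.range f).ncard ≤ (f '' S1).ncard + (f '' S2).ncard + (f '' S3).ncard +
      (f '' S4).ncard := by
    rw [hun]
    refine (Set.ncard_union_le _ _).trans ?_
    gcongr
    refine (Set.ncard_union_le _ _).trans ?_
    gcongr
    exact Set.ncard_union_le _ _
  -- the bound of the low points
  have hb2 : (f '' S2).ncard ≤ (2 ^ (e + 2) * 4 + 2) * (2 ^ (e + 2) * 4) * n ^ 2 := by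
    have h1 : ((2 : ℤ) ^ M) ^ (e + 1) ≤ hh e M := by
      unfold hh
      rw [← pow_mul]
      refine pow_le_pow_right₀ (by norm_num) ?_
      nlinarith
    have h2 := hh_pos e M
    have h3 : ((f '' S2).ncard : ℤ) ≤ (hh e M + 2 * n) * hh e M :=
      c2.trans (mul_le_mul_of_nonneg_left h1 (by positivity))
    have h4 : (hh e M + 2 * n) * hh e M ≤
        (2 ^ (e + 2) * (4 * n) + 2 * n) * (2 ^ (e + 2) * (4 * n)) := by
      gcongr
    have h5 : ((f '' S2).ncard : ℤ) ≤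
        (((2 ^ (e + 2) * 4 + 2) * (2 ^ (e + 2) * 4) * n ^ 2 : ℕ) : ℤ) := by
      push_cast
      refine h3.trans (h4.trans (le_of_eq ?_))
      ring
    exact_mod_cast h5
  have hb3 : (f '' S3).ncard ≤ 12 * n ^ 2 := by
    refine c3.trans ?_
    nlinarith
  have hb4 : (f '' S4).ncard ≤ 12 * (e + 1) * n ^ 2 := by
    refine c4.trans ?_
    have h1 : (2 * n + 1) * (2 * n + 2) ≤ 12 * n ^ 2 := by nlinarith
    calc (e + 1) * ((2 * n + 1) * (2 * n + 2)) ≤ (e + 1) * (12 * n ^ 2) := by gcongr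
      _ = 12 * (e + 1) * n ^ 2 := by ring
  have hb1 : (f '' S1).ncard ≤ 1 * n ^ 2 := by
    refine c1.trans ?_
    rw [one_mul]
    exact Nat.one_le_pow _ _ hn
  calc (Set.range f).ncard ≤ _ := hle
    _ ≤ 1 * n ^ 2 + (2 ^ (e + 2) * 4 + 2) * (2 ^ (e + 2) * 4) * n ^ 2 + 12 * n ^ 2 +
        12 * (e + 1) * n ^ 2 := by gcongr
    _ = _ := by ring

end Pool.Agent.H89.LG.T.CNT
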