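import Pool.Agent.H89.LG.Defs

set_option autoImplicit false

namespace Pool.Agent.H89.LG.T.LOW

theorem half {e n M : ℕ} (hM : 4 * (n : ℤ) ≤ hh e M) {x y u : Fin (e + 1) → ℤ} {h s : ℤ}
    (hh1 : h ≤ hh e M + n) (hs : |s| ≤ n) (hxy : ∀ i, x i % 2 ^ M = y i % 2 ^ M)
    (hd : Def e (x + u) (h + s)) : Def e (y + u) (h + s) := by
  obtain ⟨k, hk, hd⟩ := hd
  refine ⟨k, hk, ?_⟩
  rw [abs_le] at hs
  have hkM : k ≤ M := by
    by_contra hc
    push Not at hc
    have := hh_lt (e := e) hc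
    have := hh_pos e M
    omega
  have h1 : (2 : ℤ) ^ M ∣ x (ix e k) - y (ix e k) :=
    Int.ModEq.dvd (Int.ModEq.symm (hxy (ix e k)))
  have h2 : (2 : ℤ) ^ k ∣ x (ix e k) - y (ix e k) := (pow_dvd_pow 2 hkM).trans h1
  have h3 : (y + u) (ix e k) = (x + u) (ix e k) - (x (ix e k) - y (ix e k)) := by
    simp only [Pi.add_apply]; ring
  rw [h3]
  exact dvd_sub hd h2

theorem main : S_LOW := by
  intro e n M β f hM hf
  set S : Set ((Fin (e + 1) → ℤ) × ℤ) := {p | 1 - (n : ℤ) ≤ p.2 ∧ p.2 ≤ hh e M + n} with hS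
  have h := ncard_le_of_code S f (fun p => (p.2, fun i => p.1 i % 2 ^ M))
    (Finset.Icc (1 - (n : ℤ)) (hh e M + n) ×ˢ Fintype.piFinset (fun _ => Finset.Ico (0 : ℤ) (2 ^ M)))
    ?_ ?_
  · refine ⟨h.1, ?_⟩
    have h2 := h.2
    rw [Finset.card_product, Fintype.card_piFinset_const, Int.card_Icc, Int.card_Ico] at h2
    have h3 : ((f '' S).ncard : ℤ) ≤
        (((hh e M + n + 1 - (1 - (n : ℤ))).toNat * (((2 : ℤ) ^ M - 0).toNat) ^ (e + 1) : ℕ) : ℤ) := by
      exact_mod_cast h2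
    refine h3.trans (le_of_eq ?_)
    have hp := hh_pos e M
    push_cast
    rw [Int.toNat_of_nonneg (by omega), Int.toNat_of_nonneg (by simp)]
    ring
  · intro p hp
    rw [Finset.mem_product, Finset.mem_Icc, Fintype.mem_piFinset]
    refine ⟨hp, fun i => ?_⟩
    rw [Finset.mem_Ico]
    exact ⟨Int.emod_nonneg _ (by positivity), Int.emod_lt_of_pos _ (by positivity)⟩
  · intro p hp q hq hpq
    apply hf
    have e1 : p.2 = q.2 := congrArg Prod.fst hpq
    have e2 : ∀ i, p.1 i % 2 ^ M = q.1 i % 2 ^ M := fun i => congrFun (congrArg Prod.snd hpq) i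
    intro u s _ hs
    constructor
    · intro hd
      rw [← e1]
      exact half hM hp.2 hs e2 hd
    · intro hd
      rw [e1]
      exact half hM hq.2 hs (fun i => (e2 i).symm) hd

end Pool.Agent.H89.LG.T.LOW
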