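import Pool.Agent.H89.LG.Defs

set_option autoImplicit false

namespace Pool.Agent.H89.LG.T.NONE

theorem main : S_NONE := by
  intro e n β f hf
  have h := ncard_le_of_code {p | ∀ k, ¬ Vis e n p.2 k} f (fun _ => ()) {()} (by simp) ?_
  · simpa using h
  · intro p hp q hq _
    apply hf
    intro u s _ hs
    constructor
    · rintro ⟨k, hk, -⟩
      exact absurd (show Vis e n p.2 k by unfold Vis; rw [← hk]; simpa using hs) (hp k)
    · rintro ⟨k, hk, -⟩
      exact absurd (show Vis e n q.2 k by unfold Vis; rw [← hk]; simpa using hs) (hq k)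

end Pool.Agent.H89.LG.T.NONE
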