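import Pool.Agent.H89.LG.Defs

set_option autoImplicit false

namespace Pool.Agent.H89.LG.T.NSUC

theorem main : S_NSUC := by
  rintro e x y h ⟨k, hk, -⟩ ⟨l, hl, -⟩
  have h1 := hh_pos e k
  have h2 := hh_pos e l
  rcases lt_trichotomy k l with h3 | h3 | h3
  · have := hh_lt (e := e) h3; omega
  · subst h3; omega
  · have := hh_lt (e := e) h3; omega

end Pool.Agent.H89.LG.T.NSUC
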