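import Pool.Agent.H89.LG.Defs

set_option autoImplicit false

namespace Pool.Agent.H89.LG.T.ONE

theorem main : S_ONE := by
  intro e n M k h x s hM hh1 hv hs
  unfold Vis at hv
  rw [abs_le] at hv hs
  have hk : hh e M < hh e k := by linarith
  constructor
  · rintro ⟨l, hl, hd⟩
    have hl' : hh e M < hh e l := by linarith
    have hlk : l = k := by
      rcases lt_trichotomy k l with h3 | h3 | h3
      · have := hh_lt (e := e) h3; have := hh_pos e M; omega
      · exact h3.symm
      · have := hh_lt (e := e) h3; have := hh_pos e M; omega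
    subst hlk
    exact ⟨by linarith, hd⟩
  · rintro ⟨rfl, hd⟩
    exact ⟨k, by ring, hd⟩

end Pool.Agent.H89.LG.T.ONE
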