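import Pool.Agent.H89.LG.Defs

set_option autoImplicit false

namespace Pool.Agent.H89.LG.T.PER

theorem lt_hh (e k : ℕ) : (k : ℤ) < hh e k := by
  unfold hh
  calc (k : ℤ) < 2 ^ k := by exact_mod_cast Nat.lt_two_pow_self
    _ ≤ 2 ^ ((e + 2) * k) := pow_le_pow_right₀ (by norm_num) (by nlinarith [Nat.zero_le e, Nat.zero_le k])

theorem main : S_PER := by
  intro e w c h
  have h0 : ∀ k, Def e (0 : Fin (e + 1) → ℤ) (hh e k) := fun k => ⟨k, rfl, by simp⟩
  have hc : c = 0 := by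
    obtain ⟨k, hk⟩ : ∃ k : ℕ, 2 * |c| < hh e k :=
      ⟨(2 * |c|).toNat, by have := lt_hh e (2 * |c|).toNat; have := Int.self_le_toNat (2 * |c|); linarith⟩
    obtain ⟨l, hl, -⟩ := (h 0 (hh e k)).2 (h0 k)
    rcases lt_trichotomy k l with h3 | h3 | h3
    · have := hh_lt (e := e) h3; have := le_abs_self c; have := hh_pos e k; linarith
    · subst h3; linarith
    · have := hh_lt (e := e) h3; have := neg_abs_le c; have := hh_pos e k; linarith
  subst hc
  refine ⟨funext fun i => ?_, rfl⟩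
  -- a layer `k ≡ i` with `2^k > |w i|`
  let k : ℕ := i.val + (w i).natAbs * (e + 1)
  have hik : ix e k = i := by
    apply Fin.ext
    show (i.val + (w i).natAbs * (e + 1)) % (e + 1) = i.val
    rw [Nat.add_mul_mod_self_right, Nat.mod_eq_of_lt i.isLt]
  obtain ⟨l, hl, hd⟩ := (h 0 (hh e k)).2 (h0 k)
  have hlk : k = l := hh_inj (e := e) (by simpa using hl)
  rw [← hlk, hik] at hd
  have hd' : (2 : ℤ) ^ k ∣ w i := by simpa using hd
  have hlt : |w i| < 2 ^ k := by
    have h1 : (w i).natAbs ≤ k := by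
      show (w i).natAbs ≤ i.val + (w i).natAbs * (e + 1)
      nlinarith [Nat.zero_le e, Nat.zero_le (w i).natAbs, Nat.zero_le ((w i).natAbs * e)]
    have h2 : (w i).natAbs < 2 ^ k := lt_of_le_of_lt h1 Nat.lt_two_pow_self
    rw [Int.abs_eq_natAbs]; exact_mod_cast h2
  exact Int.eq_zero_of_abs_lt_dvd hd' hlt

end Pool.Agent.H89.LG.T.PER
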