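import Pool.Agent.H89.LG.Defs

set_option autoImplicit false

/-! # LG-SMALL: high points which see a layer of small period (helper71) -/

namespace Pool.Agent.H89.LG.T.SMALL

theorem main : S_SMALL := by
  intro hone e n M β f hM hf
  have hex : ∀ p : (Fin (e + 1) → ℤ) × ℤ,
      p ∈ {p : (Fin (e + 1) → ℤ) × ℤ | hh e M + n < p.2 ∧ ∃ k, Vis e n p.2 k ∧ 2 ^ k ≤ 2 * n} →
      ∃ k, Vis e n p.2 k ∧ 2 ^ k ≤ 2 * n := fun p hp => hp.2
  choose! kk hkk using hex
  have hcard : (Finset.Icc (-(n : ℤ)) n ×ˢ Finset.Ico (0 : ℤ) (4 * n)).card =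
      (2 * n + 1) * (4 * n) := by
    rw [Finset.card_product, Int.card_Icc, Int.card_Ico]
    congr 1 <;> omega
  rw [← hcard]
  refine ncard_le_of_code _ f (fun p => (hh e (kk p) - p.2,
    (2 : ℤ) ^ (kk p) + p.1 (ix e (kk p)) % 2 ^ (kk p))) _ ?_ ?_
  · intro p hp
    obtain ⟨h1, h2⟩ := hkk p hp
    unfold Vis at h1
    have h3 := abs_le.1 h1
    have h4 : (0 : ℤ) < 2 ^ (kk p) := by positivity
    have h5 := Int.emod_nonneg (p.1 (ix e (kk p))) h4.ne'
    have h6 := Int.emod_lt_of_pos (p.1 (ix e (kk p))) h4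
    have h7 : (2 : ℤ) ^ (kk p) ≤ 2 * n := by exact_mod_cast h2
    rw [Finset.mem_product, Finset.mem_Icc, Finset.mem_Ico]
    refine ⟨⟨h3.1, h3.2⟩, ?_, ?_⟩
    · show 0 ≤ (2 : ℤ) ^ (kk p) + p.1 (ix e (kk p)) % 2 ^ (kk p)
      linarith
    · show (2 : ℤ) ^ (kk p) + p.1 (ix e (kk p)) % 2 ^ (kk p) < 4 * n
      linarith
  · intro p hp q hq hpq
    obtain ⟨hp1, hp2⟩ := hkk p hp
    obtain ⟨hq1, hq2⟩ := hkk q hq
    simp only [Prod.mk.injEq] at hpq
    obtain ⟨hc1, hc2⟩ := hpq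
    have h4 : (0 : ℤ) < 2 ^ (kk p) := by positivity
    have h4' : (0 : ℤ) < 2 ^ (kk q) := by positivity
    have h5 := Int.emod_nonneg (p.1 (ix e (kk p))) h4.ne'
    have h6 := Int.emod_lt_of_pos (p.1 (ix e (kk p))) h4
    have h5' := Int.emod_nonneg (q.1 (ix e (kk q))) h4'.ne'
    have h6' := Int.emod_lt_of_pos (q.1 (ix e (kk q))) h4'
    have hk : kk p = kk q := by
      rcases lt_trichotomy (kk p) (kk q) with h | h | h
      · exfalso
        have h7 : (2 : ℤ) ^ (kk p + 1) ≤ 2 ^ (kk q) := pow_le_pow_right₀ (by norm_num) h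
        rw [pow_succ] at h7
        linarith
      · exact h
      · exfalso
        have h7 : (2 : ℤ) ^ (kk q + 1) ≤ 2 ^ (kk p) := pow_le_pow_right₀ (by norm_num) h
        rw [pow_succ] at h7
        linarith
    rw [← hk] at hc1 hc2 hq1
    have hpq2 : p.2 = q.2 := by linarith
    have hmod : p.1 (ix e (kk p)) % 2 ^ (kk p) = q.1 (ix e (kk p)) % 2 ^ (kk p) := by linarith
    apply hf
    intro u s hu hs
    rw [hone e n M (kk p) p.2 (p.1 + u) s hM hp.1 hp1 hs,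
      hone e n M (kk p) q.2 (q.1 + u) s hM hq.1 hq1 hs, hpq2]
    refine and_congr_right fun _ => ?_
    have h8 : (2 : ℤ) ^ (kk p) ∣ p.1 (ix e (kk p)) - q.1 (ix e (kk p)) :=
      Int.ModEq.dvd (Eq.symm hmod)
    simp only [Pi.add_apply]
    constructor
    · intro h9
      have h10 := dvd_sub h9 h8
      have h11 : p.1 (ix e (kk p)) + u (ix e (kk p)) - (p.1 (ix e (kk p)) - q.1 (ix e (kk p))) =
        q.1 (ix e (kk p)) + u (ix e (kk p)) := by ring
      rwa [h11] at h10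
    · intro h9
      have h10 := dvd_add h9 h8
      have h11 : q.1 (ix e (kk p)) + u (ix e (kk p)) + (p.1 (ix e (kk p)) - q.1 (ix e (kk p))) =
        p.1 (ix e (kk p)) + u (ix e (kk p)) := by ring
      rwa [h11] at h10

end Pool.Agent.H89.LG.T.SMALL
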